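import Pool.Agent.Snowflake.Map

open Finset MeasureTheory Filter Topology

namespace Pool.Agent.Results.MP_d89202_an.NoSnowflake

open Pool.Agent.Snowflake

/-- `L_q = L_q([0,1])`, real-valued, Lebesgue measure. -/
abbrev Lq (q : ℝ) : Type := Lp ℝ (ENNReal.ofReal q) (volume.restrict (Set.Icc (0 : ℝ) 1))

/-- `f` is a biLipschitz embedding of `(X, ‖x - y‖^θ)` into `Y`: for some `s > 0`, `D ≥ 1`,
`s ‖x - y‖^θ ≤ ‖f x - f y‖ ≤ D s ‖x - y‖^θ` for all `x, y`. -/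
def IsSnowflakeEmbedding {X Y : Type*} [Sub X] [Norm X] [Sub Y] [Norm Y] (θ : ℝ)
    (f : X → Y) : Prop :=
  ∃ s D : ℝ, 0 < s ∧ 1 ≤ D ∧
    ∀ x y : X, s * ‖x - y‖ ^ θ ≤ ‖f x - f y‖ ∧ ‖f x - f y‖ ≤ D * s * ‖x - y‖ ^ θ

/-- Let `q > 2`, `p ≥ 2` and `0 < θ < q / p`. Then the `θ`-snowflake of `L_q([0,1])` does not admit
a biLipschitz embedding into `L_p(μ)`, for any measure `μ`. For `p = q`, `θ = 1/2` and `μ` Lebesgue
measure on `[0,1]` this is the negative answer to the question. -/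
theorem result {p q θ : ℝ} (hp : 2 ≤ p) (hq : 2 < q) (hθ : 0 < θ) (hθq : θ < q / p)
    {Ω : Type*} [MeasurableSpace Ω] (μ : Measure Ω) :
    ¬ ∃ f : Lq q → Lp ℝ (ENNReal.ofReal p) μ, IsSnowflakeEmbedding θ f := by
  rintro ⟨f, s, D, hs, hD, hf⟩
  have hp0 : 0 < p := by linarith
  have hq0 : 0 < q := by linarith
  have hq1 : 1 ≤ q := by linarith
  have hDs : 0 < D * s := by positivity
  have hexp : 0 < 1 / p - θ / q := by
    rw [sub_pos, div_lt_div_iff₀ hq0 hp0, one_mul]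
    rwa [lt_div_iff₀ hp0] at hθq
  -- choice of `m`
  set C₂ : ℝ := D * s * ((2 : ℝ) ^ (q + 1)) ^ (θ / q) with hC₂
  have hC₂pos : 0 < C₂ := by positivity
  obtain ⟨m, hm1, hm⟩ : ∃ m : ℕ, 1 ≤ m ∧ C₂ / s < (m : ℝ) ^ (1 / p - θ / q) := by
    have h1 : Tendsto (fun m : ℕ => (m : ℝ) ^ (1 / p - θ / q)) atTop atTop :=
      (tendsto_rpow_atTop hexp).comp tendsto_natCast_atTop_atTop
    obtain ⟨m, h2, h3⟩ := ((h1.eventually_gt_atTop (C₂ / s)).and
      (eventually_ge_atTop 1)).exists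
    exact ⟨m, h3, h2⟩
  have hm0 : (0 : ℝ) < m := by exact_mod_cast hm1
  set B : ℝ := D * s * (m * (2 : ℝ) ^ (q + 1)) ^ (θ / q) with hB
  set R : ℝ := D * s * (1 * (2 : ℝ) ^ (q + 1)) ^ (θ / q) with hR
  have hBm : B < (m : ℝ) ^ (1 / p) * s := by
    have h1 : B = C₂ * (m : ℝ) ^ (θ / q) := by
      rw [hB, hC₂, Real.mul_rpow hm0.le (by positivity)]
      ring
    rw [h1]
    have h2 : (m : ℝ) ^ (1 / p) = (m : ℝ) ^ (1 / p - θ / q) * (m : ℝ) ^ (θ / q) := by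
      rw [← Real.rpow_add hm0]
      congr 1
      ring
    rw [h2]
    rw [div_lt_iff₀ hs] at hm
    have h3 : 0 < (m : ℝ) ^ (θ / q) := by positivity
    nlinarith
  obtain ⟨L, η, hL, hη, hmain⟩ := quant (μ := μ) hp (by positivity : 0 ≤ R)
    (by positivity : 0 ≤ B) hs m hm1 hBm
  have hL0 : (0 : ℝ) < L := by exact_mod_cast hL
  -- choice of `T`
  obtain ⟨T, hT1, hT⟩ : ∃ T : ℕ, 1 ≤ T ∧
      D * s * (2 * ((L * T ^ 2 : ℕ) : ℝ) * (Real.pi / T) ^ q) ^ (θ / q) ≤ η := by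
    have h1 : Tendsto (fun T : ℕ => (T : ℝ) ^ (-(q - 2))) atTop (𝓝 0) :=
      (tendsto_rpow_neg_atTop (by linarith : 0 < q - 2)).comp tendsto_natCast_atTop_atTop
    have h2 : Tendsto (fun T : ℕ => (2 * L * Real.pi ^ q) * (T : ℝ) ^ (-(q - 2))) atTop
        (𝓝 ((2 * L * Real.pi ^ q) * 0)) := h1.const_mul _
    rw [mul_zero] at h2
    have h3 : Tendsto (fun T : ℕ => ((2 * L * Real.pi ^ q) * (T : ℝ) ^ (-(q - 2))) ^ (θ / q))
        atTop (𝓝 ((0 : ℝ) ^ (θ / q))) :=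
      h2.rpow_const (Or.inr (by positivity))
    rw [Real.zero_rpow (by positivity : θ / q ≠ 0)] at h3
    have h4 : Tendsto (fun T : ℕ => D * s *
        ((2 * L * Real.pi ^ q) * (T : ℝ) ^ (-(q - 2))) ^ (θ / q)) atTop (𝓝 (D * s * 0)) :=
      h3.const_mul _
    rw [mul_zero] at h4
    obtain ⟨T, h5, h6⟩ := ((h4.eventually_lt_const hη).and (eventually_ge_atTop 1)).exists
    refine ⟨T, h6, ?_⟩
    have hT0 : (0 : ℝ) < T := by exact_mod_cast h6
    have h7 : 2 * ((L * T ^ 2 : ℕ) : ℝ) * (Real.pi / T) ^ q =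
        (2 * L * Real.pi ^ q) * (T : ℝ) ^ (-(q - 2)) := by
      rw [Real.div_rpow Real.pi_pos.le hT0.le]
      have h8 : (T : ℝ) ^ (-(q - 2)) = (T : ℝ) ^ 2 / (T : ℝ) ^ q := by
        rw [← Real.rpow_natCast, ← Real.rpow_sub hT0]
        congr 1
        push_cast
        ring
      rw [h8]
      push_cast
      ring
    rw [h7]
    exact h5.le
  have hT0 : 0 < T := hT1
  have hNe : NeZero T := ⟨by omega⟩
  set n : ℕ := L * T ^ 2 with hn
  have hn0 : 0 < n := by positivity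
  obtain ⟨h, ha, hb, hc⟩ := exists_map hq1 T n hT0 hn0
  -- conversion of norms
  have hnn : ∀ u : Lq q, 0 ≤ ‖u‖ := fun u => by
    rw [Lp.norm_def]
    exact ENNReal.toReal_nonneg
  have hconv : ∀ (u : Lq q) (t : ℝ), 0 ≤ t → ‖u‖ ^ q ≤ t → ‖u‖ ^ θ ≤ t ^ (θ / q) := by
    intro u t _ hu
    have h1 : ‖u‖ ^ θ = (‖u‖ ^ q) ^ (θ / q) := by
      rw [← Real.rpow_mul (hnn u)]
      congr 1
      field_simp
    rw [h1]
    exact Real.rpow_le_rpow (Real.rpow_nonneg (hnn u) _) hu (by positivity)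
  have hconv2 : ∀ u : Lq q, 1 ≤ ‖u‖ ^ q → 1 ≤ ‖u‖ ^ θ := by
    intro u hu
    have h1 : ‖u‖ ^ θ = (‖u‖ ^ q) ^ (θ / q) := by
      rw [← Real.rpow_mul (hnn u)]
      congr 1
      field_simp
    rw [h1]
    exact Real.one_le_rpow hu (by positivity)
  refine hmain T n hNe rfl (fun x => f (h x)) ?_ ?_ ?_ ?_
  · intro A x
    refine ((hf _ _).2.trans ?_).trans hT
    exact mul_le_mul_of_nonneg_left (hconv _ _ (by positivity) (ha A x)) hDs.le
  · intro i x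
    refine (hf _ _).2.trans ?_
    refine mul_le_mul_of_nonneg_left (hconv _ _ (by positivity) ?_) hDs.le
    have := hc {i} x
    rwa [sum_singleton, card_singleton, Nat.cast_one] at this
  · intro i x
    refine le_trans ?_ (hf _ _).1
    have := hconv2 _ (hb i x)
    nlinarith
  · intro J hJ x
    refine (hf _ _).2.trans ?_
    refine mul_le_mul_of_nonneg_left (hconv _ _ (by positivity) ?_) hDs.le
    have := hc J x
    rwa [hJ] at this

end Pool.Agent.Results.MP_d89202_an.NoSnowflake
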